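import Pool.Agent.Helper64.Er.E9f
import Pool.Agent.Helper38.Er.E9c

/-!
# The conditional variances (package E9f)
-/

set_option autoImplicit false
open MeasureTheory Filter Topology ProbabilityTheory
open scoped ContDiff ENNReal InnerProductSpace

namespace Pool.Agent.Helper64.Er

open Pool.Agent.N661.BR (MW)
open Pool.Agent.Helper26.Ip
open Pool.Agent.Helper26.Er
open Complex (I)

variable {μ : Measure MW} [IsProbabilityMeasure μ]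

/-- E9f -/
theorem var_const (hi : Iso μ) {q : ℝ} (hq : q ≤ 1)
    (hm : ∀ a ∈ values μ, ∀ b ∈ values μ, Orthonormal ℝ ![a, b] →
      Integrable (fun f => a f ^ 4) μ ∧ Integrable (fun f => a f ^ 2 * b f ^ 2) μ ∧
      ∫ f, a f ^ 4 ∂μ = 3 * q ∧ ∫ f, a f ^ 2 * b f ^ 2 ∂μ = q)
    {c : Lp ℝ 2 μ} (hc : c ∈ values μ)
    (hd : ∀ n : ℕ, ∃ e : Fin n → Lp ℝ 2 μ, (∀ i, e i ∈ values μ) ∧ Orthonormal ℝ e ∧
      ∀ i, ⟪c, e i⟫_ℝ = 0) {k : Lp ℝ 2 μ} (hk : k ∈ values μ) (hk1 : ‖k‖ = 1)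
    (hck : ⟪c, k⟫_ℝ = 0) :
    ∫ f, ((k f ^ 2 : ℝ) : ℂ) * Complex.exp (I * ((c f : ℝ) : ℂ)) ∂μ = (‖k‖ ^ 2 : ℝ) * ch c :=
  var_const_of (fun _ _ ha hb hab _ hF => Pool.Agent.Helper38.Er.law_eq hi ha hb hab hF) hq hm hc
    hd hk hk1 hck

end Pool.Agent.Helper64.Er
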