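import Pool.Agent.Helper26.Er.Defs

/-!
# The conditional variances of an isotropic law on an infinite-dimensional space (package E9f)
-/

set_option autoImplicit false
set_option linter.unusedSectionVars false
open MeasureTheory Filter Topology ProbabilityTheory
open scoped ContDiff ENNReal InnerProductSpace

namespace Pool.Agent.Helper64.Er

open Pool.Agent.N661.BR (MW)
open Pool.Agent.Helper26.Ip
open Pool.Agent.Helper26.Er
open Complex (I)

variable {μ : Measure MW} [IsProbabilityMeasure μ]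

/-- The statement of the package E9c for two elements. -/
def LawEq (μ : Measure MW) : Prop := ∀ a b : Fin 2 → Lp ℝ 2 μ, (∀ i, a i ∈ values μ) →
  (∀ i, b i ∈ values μ) → (∀ i j, ⟪a i, a j⟫_ℝ = ⟪b i, b j⟫_ℝ) →
  ∀ F : (Fin 2 → ℝ) → ℝ≥0∞, Measurable F →
    ∫⁻ f, F (fun i => a i f) ∂μ = ∫⁻ f, F (fun i => b i f) ∂μ

omit [IsProbabilityMeasure μ] in
lemma map_eq (hlaw : LawEq μ) {a b : Fin 2 → Lp ℝ 2 μ} (ha : ∀ i, a i ∈ values μ)
    (hb : ∀ i, b i ∈ values μ) (hab : ∀ i j, ⟪a i, a j⟫_ℝ = ⟪b i, b j⟫_ℝ) :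
    μ.map (fun f i => a i f) = μ.map (fun f i => b i f) := by
  have hma : AEMeasurable (fun f i => a i f) μ :=
    aemeasurable_pi_lambda _ fun i => (Lp.aestronglyMeasurable (a i)).aemeasurable
  have hmb : AEMeasurable (fun f i => b i f) μ :=
    aemeasurable_pi_lambda _ fun i => (Lp.aestronglyMeasurable (b i)).aemeasurable
  ext s hs
  have h1 : Measurable (s.indicator (1 : (Fin 2 → ℝ) → ℝ≥0∞)) := measurable_one.indicator hs
  rw [← lintegral_indicator_one hs, ← lintegral_indicator_one hs, lintegral_map' h1.aemeasurable hma,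
    lintegral_map' h1.aemeasurable hmb]
  exact hlaw a b ha hb hab _ h1

omit [IsProbabilityMeasure μ] in
lemma int_eq (hlaw : LawEq μ) {c k e : Lp ℝ 2 μ} (hc : c ∈ values μ) (hk : k ∈ values μ)
    (he : e ∈ values μ) (hk1 : ‖k‖ = 1) (he1 : ‖e‖ = 1) (hck : ⟪c, k⟫_ℝ = 0) (hce : ⟪c, e⟫_ℝ = 0) :
    ∫ f, ((k f ^ 2 : ℝ) : ℂ) * Complex.exp (I * ((c f : ℝ) : ℂ)) ∂μ =
      ∫ f, ((e f ^ 2 : ℝ) : ℂ) * Complex.exp (I * ((c f : ℝ) : ℂ)) ∂μ := by
  have h1 : μ.map (fun f i => (![k, c] : Fin 2 → Lp ℝ 2 μ) i f) =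
      μ.map (fun f i => (![e, c] : Fin 2 → Lp ℝ 2 μ) i f) := by
    refine map_eq hlaw ?_ ?_ ?_
    · intro i
      fin_cases i
      · exact hk
      · exact hc
    · intro i
      fin_cases i
      · exact he
      · exact hc
    · have hkc : ⟪k, c⟫_ℝ = 0 := by rw [real_inner_comm]; exact hck
      have hec : ⟪e, c⟫_ℝ = 0 := by rw [real_inner_comm]; exact hce
      have hkk : ⟪k, k⟫_ℝ = 1 := by rw [real_inner_self_eq_norm_sq, hk1, one_pow]
      have hee : ⟪e, e⟫_ℝ = 1 := by rw [real_inner_self_eq_norm_sq, he1, one_pow]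
      intro i j
      fin_cases i <;> fin_cases j
      · exact hkk.trans hee.symm
      · exact hkc.trans hec.symm
      · exact hck.trans hce.symm
      · rfl
  let G : (Fin 2 → ℝ) → ℂ := fun y => ((y 0 ^ 2 : ℝ) : ℂ) * Complex.exp (I * ((y 1 : ℝ) : ℂ))
  have hG : Continuous G := by fun_prop
  have h2 : ∀ d : Lp ℝ 2 μ, ∫ y, G y ∂(μ.map (fun f i => (![d, c] : Fin 2 → Lp ℝ 2 μ) i f)) =
      ∫ f, ((d f ^ 2 : ℝ) : ℂ) * Complex.exp (I * ((c f : ℝ) : ℂ)) ∂μ := by
    intro d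
    rw [integral_map (aemeasurable_pi_lambda _ fun i =>
      (Lp.aestronglyMeasurable ((![d, c] : Fin 2 → Lp ℝ 2 μ) i)).aemeasurable)
      hG.aestronglyMeasurable]
    rfl
  rw [← h2 k, ← h2 e, h1]

lemma sq_int (e : Lp ℝ 2 μ) : Integrable (fun f => e f ^ 2) μ := (Lp.memLp e).integrable_sq

lemma sq_one {e : Lp ℝ 2 μ} (he : ‖e‖ = 1) : ∫ f, e f ^ 2 ∂μ = 1 := by
  have h1 : ⟪e, e⟫_ℝ = 1 := by rw [real_inner_self_eq_norm_sq, he, one_pow]
  rw [L2.inner_def] at h1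
  rw [← h1]
  refine integral_congr_ae (Eventually.of_forall fun f => ?_)
  change e f ^ 2 = ⟪e f, e f⟫_ℝ
  rw [real_inner_self_eq_norm_sq, Real.norm_eq_abs, sq_abs]

/-- the mean square of `(∑ e_i²) / n - 1` -/
lemma second {q : ℝ} {n : ℕ} (hn : 2 ≤ n) {e : Fin n → Lp ℝ 2 μ} (he : ∀ i, e i ∈ values μ)
    (ho : Orthonormal ℝ e)
    (hm : ∀ a ∈ values μ, ∀ b ∈ values μ, Orthonormal ℝ ![a, b] →
      Integrable (fun f => a f ^ 4) μ ∧ Integrable (fun f => a f ^ 2 * b f ^ 2) μ ∧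
      ∫ f, a f ^ 4 ∂μ = 3 * q ∧ ∫ f, a f ^ 2 * b f ^ 2 ∂μ = q) :
    Integrable (fun f => ((∑ i, e i f ^ 2) / n - 1) ^ 2) μ ∧
      ∫ f, ((∑ i, e i f ^ 2) / n - 1) ^ 2 ∂μ = q * (1 + 2 / n) - 1 := by
  classical
  have hn0 : (n : ℝ) ≠ 0 := by positivity
  have hpair : ∀ i j, i ≠ j → Orthonormal ℝ ![e i, e j] := by
    intro i j hij
    have h1 : Function.Injective ![i, j] := by
      intro a b hab
      fin_cases a <;> fin_cases b <;> simp_all
    have h2 := ho.comp ![i, j] h1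
    have h3 : e ∘ ![i, j] = ![e i, e j] := by
      funext a
      fin_cases a <;> rfl
    rwa [h3] at h2
  have hother : ∀ i : Fin n, ∃ j, i ≠ j := by
    intro i
    by_cases h : (i : ℕ) = 0
    · exact ⟨⟨1, by omega⟩, fun h' => by rw [h'] at h; simp at h⟩
    · exact ⟨⟨0, by omega⟩, fun h' => h (by rw [h'])⟩
  have hI : ∀ i j, Integrable (fun f => e i f ^ 2 * e j f ^ 2) μ := by
    intro i j
    by_cases hij : i = j
    · obtain ⟨l, hl⟩ := hother i
      have := (hm (e i) (he i) (e l) (he l) (hpair i l hl)).1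
      rw [← hij]
      refine this.congr (Eventually.of_forall fun f => ?_)
      change e i f ^ 4 = e i f ^ 2 * e i f ^ 2
      ring
    · exact (hm (e i) (he i) (e j) (he j) (hpair i j hij)).2.1
  have hE : ∀ i j, ∫ f, e i f ^ 2 * e j f ^ 2 ∂μ = q + if i = j then 2 * q else 0 := by
    intro i j
    by_cases hij : i = j
    · obtain ⟨l, hl⟩ := hother i
      have h1 := (hm (e i) (he i) (e l) (he l) (hpair i l hl)).2.2.1
      rw [← hij, if_pos rfl]
      have h2 : ∫ f, e i f ^ 2 * e i f ^ 2 ∂μ = ∫ f, e i f ^ 4 ∂μ :=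
        integral_congr_ae (Eventually.of_forall fun f => by
          change e i f ^ 2 * e i f ^ 2 = e i f ^ 4
          ring)
      rw [h2, h1]
      ring
    · rw [if_neg hij, add_zero]
      exact (hm (e i) (he i) (e j) (he j) (hpair i j hij)).2.2.2
  have hexp : (fun f => ((∑ i, e i f ^ 2) / n - 1) ^ 2) = fun f =>
      ((1 / (n : ℝ) ^ 2) * ∑ i, ∑ j, e i f ^ 2 * e j f ^ 2) - ((2 / n) * ∑ i, e i f ^ 2) + 1 := by
    funext f
    have h1 : ∑ i, ∑ j, e i f ^ 2 * e j f ^ 2 = (∑ i, e i f ^ 2) * ∑ j, e j f ^ 2 := by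
      rw [Finset.sum_mul_sum]
    rw [h1]
    field_simp
    ring
  have hIs : Integrable (fun f => ∑ i, ∑ j, e i f ^ 2 * e j f ^ 2) μ :=
    integrable_finsetSum _ fun i _ => integrable_finsetSum _ fun j _ => hI i j
  have hI1 : Integrable (fun f => ∑ i, e i f ^ 2) μ :=
    integrable_finsetSum _ fun i _ => sq_int (e i)
  have hI2 : Integrable (fun f => (1 / (n : ℝ) ^ 2) * ∑ i, ∑ j, e i f ^ 2 * e j f ^ 2) μ :=
    hIs.const_mul _
  have hI3 : Integrable (fun f => (2 / (n : ℝ)) * ∑ i, e i f ^ 2) μ := hI1.const_mul _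
  have hI23 : Integrable (fun f => (1 / (n : ℝ) ^ 2) * ∑ i, ∑ j, e i f ^ 2 * e j f ^ 2 -
      (2 / (n : ℝ)) * ∑ i, e i f ^ 2) μ := hI2.sub hI3
  rw [hexp]
  refine ⟨hI23.add (integrable_const 1), ?_⟩
  rw [integral_add hI23 (integrable_const 1), integral_sub hI2 hI3,
    integral_const_mul, integral_const_mul, integral_finsetSum _ fun i _ => sq_int (e i),
    integral_finsetSum _ fun i _ => integrable_finsetSum _ fun j _ => hI i j]
  have h4 : ∑ i, ∫ f, ∑ j, e i f ^ 2 * e j f ^ 2 ∂μ = n ^ 2 * q + 2 * n * q := by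
    have h5 : ∀ i, ∫ f, ∑ j, e i f ^ 2 * e j f ^ 2 ∂μ = n * q + 2 * q := by
      intro i
      rw [integral_finsetSum _ fun j _ => hI i j]
      simp only [hE]
      rw [Finset.sum_add_distrib, Finset.sum_ite_eq, if_pos (Finset.mem_univ i), Finset.sum_const,
        Finset.card_univ, Fintype.card_fin, nsmul_eq_mul]
    simp only [h5]
    rw [Finset.sum_const, Finset.card_univ, Fintype.card_fin, nsmul_eq_mul]
    ring
  have h6 : ∑ i, ∫ f, e i f ^ 2 ∂μ = n := by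
    simp only [sq_one (ho.1 _)]
    rw [Finset.sum_const, Finset.card_univ, Fintype.card_fin, nsmul_eq_mul, mul_one]
  rw [h4, h6, integral_const, probReal_univ, one_smul]
  field_simp
  ring

lemma cint {k c : Lp ℝ 2 μ} :
    Integrable (fun f => ((k f ^ 2 : ℝ) : ℂ) * Complex.exp (I * ((c f : ℝ) : ℂ))) μ := by
  refine Integrable.mul_bdd (c := 1) (sq_int k).ofReal ?_ ?_
  · have h1 : AEStronglyMeasurable (fun f => c f) μ := Lp.aestronglyMeasurable c
    have h2 : Continuous fun y : ℝ => Complex.exp (I * ((y : ℝ) : ℂ)) := by fun_prop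
    exact h2.comp_aestronglyMeasurable h1
  · refine Eventually.of_forall fun f => ?_
    rw [mul_comm, Complex.norm_exp_ofReal_mul_I]

/-- **E9f**, from E9c -/
theorem var_const_of (hlaw : LawEq μ) {q : ℝ} (hq : q ≤ 1)
    (hm : ∀ a ∈ values μ, ∀ b ∈ values μ, Orthonormal ℝ ![a, b] →
      Integrable (fun f => a f ^ 4) μ ∧ Integrable (fun f => a f ^ 2 * b f ^ 2) μ ∧
      ∫ f, a f ^ 4 ∂μ = 3 * q ∧ ∫ f, a f ^ 2 * b f ^ 2 ∂μ = q)
    {c : Lp ℝ 2 μ} (hc : c ∈ values μ)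
    (hd : ∀ n : ℕ, ∃ e : Fin n → Lp ℝ 2 μ, (∀ i, e i ∈ values μ) ∧ Orthonormal ℝ e ∧
      ∀ i, ⟪c, e i⟫_ℝ = 0) {k : Lp ℝ 2 μ} (hk : k ∈ values μ) (hk1 : ‖k‖ = 1)
    (hck : ⟪c, k⟫_ℝ = 0) :
    ∫ f, ((k f ^ 2 : ℝ) : ℂ) * Complex.exp (I * ((c f : ℝ) : ℂ)) ∂μ = (‖k‖ ^ 2 : ℝ) * ch c := by
  set A := ∫ f, ((k f ^ 2 : ℝ) : ℂ) * Complex.exp (I * ((c f : ℝ) : ℂ)) ∂μ with hA
  rw [hk1, one_pow, Complex.ofReal_one, one_mul, ← sub_eq_zero, ← norm_eq_zero]
  have key : ∀ δ : ℝ, 0 < δ → ‖A - ch c‖ ≤ δ := by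
    intro δ hδ
    obtain ⟨n, hn⟩ := exists_nat_ge (2 + 2 / δ ^ 2)
    have hn2 : 2 ≤ n := by
      have : (2 : ℝ) ≤ n := le_trans (by linarith [show 0 < 2 / δ ^ 2 by positivity]) hn
      exact_mod_cast this
    have hn0 : (0 : ℝ) < n := by positivity
    obtain ⟨e, he, ho, hce⟩ := hd n
    obtain ⟨hX, hX2⟩ := second hn2 he ho hm
    let X : MW → ℝ := fun f => (∑ i, e i f ^ 2) / n - 1
    have hXi : Integrable X μ :=
      ((integrable_finsetSum _ fun i _ => sq_int (e i)).div_const _).sub (integrable_const 1)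
    have hexp1 : ∀ f, ‖Complex.exp (I * ((c f : ℝ) : ℂ))‖ = 1 := by
      intro f
      rw [mul_comm, Complex.norm_exp_ofReal_mul_I]
    have hexpi : Integrable (fun f => Complex.exp (I * ((c f : ℝ) : ℂ))) μ := by
      have h1 : AEStronglyMeasurable (fun f => c f) μ := Lp.aestronglyMeasurable c
      have h2 : Continuous fun y : ℝ => Complex.exp (I * ((y : ℝ) : ℂ)) := by fun_prop
      refine (integrable_const (1 : ℝ)).mono' (h2.comp_aestronglyMeasurable h1) ?_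
      exact Eventually.of_forall fun f => (hexp1 f).le
    have h1 : A - ch c = ∫ f, (X f : ℂ) * Complex.exp (I * ((c f : ℝ) : ℂ)) ∂μ := by
      have h2 : (fun f => (X f : ℂ) * Complex.exp (I * ((c f : ℝ) : ℂ))) = fun f =>
          (1 / (n : ℂ)) * (∑ i, ((e i f ^ 2 : ℝ) : ℂ) * Complex.exp (I * ((c f : ℝ) : ℂ))) -
            Complex.exp (I * ((c f : ℝ) : ℂ)) := by
        funext f
        have hnc : (n : ℂ) ≠ 0 := by exact_mod_cast hn0.ne'
        simp only [X]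
        push_cast
        rw [← Finset.sum_mul]
        field_simp
      rw [h2, integral_sub ((integrable_finsetSum _ fun i _ => cint).const_mul _) hexpi,
        integral_const_mul, integral_finsetSum _ fun i _ => cint]
      have h3 : ∀ i, ∫ f, ((e i f ^ 2 : ℝ) : ℂ) * Complex.exp (I * ((c f : ℝ) : ℂ)) ∂μ = A :=
        fun i => (int_eq hlaw hc hk (he i) hk1 (ho.1 i) hck (hce i)).symm
      simp only [h3]
      rw [Finset.sum_const, Finset.card_univ, Fintype.card_fin, nsmul_eq_mul]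
      have hnc : (n : ℂ) ≠ 0 := by exact_mod_cast hn0.ne'
      rw [← mul_assoc, one_div, inv_mul_cancel₀ hnc, one_mul]
      rfl
    have h4 : ‖A - ch c‖ ≤ ∫ f, |X f| ∂μ := by
      rw [h1]
      refine (norm_integral_le_integral_norm _).trans (le_of_eq ?_)
      refine integral_congr_ae (Eventually.of_forall fun f => ?_)
      change ‖(X f : ℂ) * Complex.exp (I * ((c f : ℝ) : ℂ))‖ = |X f|
      rw [norm_mul, hexp1, mul_one, Complex.norm_real, Real.norm_eq_abs]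
    have h5 : ∫ f, |X f| ∂μ ≤ ∫ f, (X f ^ 2 / (2 * δ) + δ / 2) ∂μ := by
      refine integral_mono hXi.abs ((hX.div_const _).add (integrable_const _)) fun f => ?_
      change |X f| ≤ X f ^ 2 / (2 * δ) + δ / 2
      have h6 : 0 ≤ (|X f| - δ) ^ 2 := sq_nonneg _
      have h7 : |X f| ^ 2 = X f ^ 2 := sq_abs _
      have h8 : X f ^ 2 / (2 * δ) + δ / 2 - |X f| = (|X f| - δ) ^ 2 / (2 * δ) := by
        rw [← h7]
        field_simp
        ring
      have h9 : 0 ≤ (|X f| - δ) ^ 2 / (2 * δ) := by positivity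
      linarith
    have h6 : ∫ f, (X f ^ 2 / (2 * δ) + δ / 2) ∂μ = (q * (1 + 2 / n) - 1) / (2 * δ) + δ / 2 := by
      rw [integral_add (hX.div_const _) (integrable_const _), integral_div, hX2, integral_const,
        probReal_univ, one_smul]
    have h7 : q * (1 + 2 / n) - 1 ≤ 2 / n := by
      have : q * (1 + 2 / n) ≤ 1 * (1 + 2 / (n : ℝ)) :=
        mul_le_mul_of_nonneg_right hq (by positivity)
      linarith
    have h8 : (2 : ℝ) / n ≤ δ ^ 2 := by
      rw [div_le_iff₀ hn0]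
      have h9 : 2 / δ ^ 2 ≤ n := by linarith
      rw [div_le_iff₀ (by positivity)] at h9
      linarith
    have h9 : (q * (1 + 2 / n) - 1) / (2 * δ) ≤ δ / 2 := by
      rw [div_le_iff₀ (by positivity)]
      nlinarith
    linarith [h5.trans_eq h6]
  refine le_antisymm ?_ (norm_nonneg _)
  by_contra h
  rw [not_le] at h
  have := key (‖A - ch c‖ / 2) (by linarith)
  linarith

end Pool.Agent.Helper64.Er
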